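import Pool.Agent.TH242.MK.Lin
import Pool.Agent.TH242.MK.Strip

/-!
Products of real powers of positive periodic functions with zero-free entire extensions:
independence over the entire functions of order less than one in `e^{iz}`.
-/

set_option autoImplicit false

open Complex Set Metric Filter Topology

namespace Pool.Agent.Y717.BK

open Pool.Agent.TH242.MK Pool.Agent.W743.BE

/-- a logarithm which is real on the real line -/
theorem real_log {ρ : ℝ → ℝ} {R : ℂ → ℂ} (h : Ext ρ R) :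
    ∃ g : ℂ → ℂ, Differentiable ℂ g ∧ (∀ z, cexp (g z) = R z) ∧
      ∀ x : ℝ, g x = (Real.log (ρ x) : ℂ) := by
  obtain ⟨g0, hd, hg0⟩ := exists_log h.diff h.nz
  have h1 : ∀ z, cexp (g0 z - g0 0 + (Real.log (ρ 0) : ℂ)) = R z := by
    intro z
    rw [Complex.exp_add, Complex.exp_sub, hg0, hg0, ← Complex.ofReal_exp, Real.exp_log (h.pos 0)]
    have h2 : R 0 = ρ 0 := by simpa using h.real 0
    rw [h2]
    have h3 : (ρ 0 : ℂ) ≠ 0 := by exact_mod_cast (h.pos 0).ne'
    field_simp
  refine ⟨fun z => g0 z - g0 0 + (Real.log (ρ 0) : ℂ), (hd.sub_const _).add_const _, h1, ?_⟩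
  set g : ℂ → ℂ := fun z => g0 z - g0 0 + (Real.log (ρ 0) : ℂ) with hg
  have hgc : Continuous fun x : ℝ => g x :=
    ((hd.sub_const _).add_const _).continuous.comp continuous_ofReal
  have h2 : ∀ x : ℝ, cexp (g x) = ρ x := fun x => (h1 x).trans (h.real x)
  have hre : ∀ x : ℝ, (g x).re = Real.log (ρ x) := by
    intro x
    have h3 := congrArg norm (h2 x)
    rw [Complex.norm_exp, Complex.norm_real, Real.norm_of_nonneg (h.pos x).le] at h3
    rw [← h3, Real.log_exp]
  have hcos : ∀ x : ℝ, Real.cos (g x).im = 1 := by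
    intro x
    have h3 := congrArg Complex.re (h2 x)
    rw [Complex.exp_re, ofReal_re, hre x, Real.exp_log (h.pos x)] at h3
    have h4 := (h.pos x).ne'
    field_simp at h3
    linarith
  have him : ∀ x : ℝ, (g x).im = 0 := by
    intro x
    have h3 := const_of_cos (φ := fun x : ℝ => (g x).im) (continuous_im.comp hgc) hcos x 0
    have h5 : (g ((0 : ℝ) : ℂ)).im = 0 := by
      rw [hg]
      simp
    exact h3.trans h5
  intro x
  apply Complex.ext
  · rw [hre x, ofReal_re]
  · rw [him x, ofReal_im]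

/-- products of real powers -/
noncomputable def mon {n : ℕ} (P : Fin n → ℝ → ℝ) (α : Fin n → ℝ) (t : ℝ) : ℝ :=
  ∏ j, P j t ^ α j

theorem ext_mon {n : ℕ} {P : Fin n → ℝ → ℝ} {R : Fin n → ℂ → ℂ} (hR : ∀ j, Ext (P j) (R j)) :
    ∃ Q : (Fin n → ℝ) → ℂ → ℂ, ∀ α, Ext (mon P α) (Q α) := by
  choose g hgd hg hgr using fun j => real_log (hR j)
  refine ⟨fun α z => cexp (∑ j, α j * g j z), fun α => ⟨?_, ?_, ?_, ?_, fun z => exp_ne_zero _⟩⟩
  · exact Differentiable.cexp (Differentiable.fun_sum fun j _ => (hgd j).const_mul _)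
  · intro x
    unfold mon
    have h1 : ∀ j, P j x ^ α j = Real.exp (α j * Real.log (P j x)) := fun j => by
      rw [Real.rpow_def_of_pos ((hR j).pos x), mul_comm]
    have h2 : ∏ j, P j x ^ α j = Real.exp (∑ j, α j * Real.log (P j x)) := by
      rw [Real.exp_sum]
      exact Finset.prod_congr rfl fun j _ => h1 j
    have h3 : ∑ j, (α j : ℂ) * g j x = ((∑ j, α j * Real.log (P j x) : ℝ) : ℂ) := by
      push_cast
      exact Finset.sum_congr rfl fun j _ => by rw [hgr]
    show cexp (∑ j, (α j : ℂ) * g j x) = _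
    rw [h2, h3, Complex.ofReal_exp]
  · intro x
    exact Finset.prod_pos fun j _ => Real.rpow_pos_of_pos ((hR j).pos x) _
  · intro x
    unfold mon
    exact Finset.prod_congr rfl fun j _ => by rw [(hR j).per x]

/-- **independence of products of powers** -/
theorem lin_mon {n : ℕ} {P : Fin n → ℝ → ℝ} {R : Fin n → ℂ → ℂ} (hR : ∀ j, Ext (P j) (R j))
    (S : Finset (Fin n → ℝ))
    (hS : ∀ α ∈ S, ∀ β ∈ S, α ≠ β → ¬ ∃ c : ℝ, ∀ t, mon P α t = c * mon P β t)
    {σ : ℝ} (hσ : 0 ≤ σ) (hσ1 : σ < 1) {a : (Fin n → ℝ) → ℂ → ℂ} (ha : ∀ α ∈ S, Tm σ (a α))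
    (hsum : ∀ t : ℝ, ∑ α ∈ S, a α t * (mon P α t : ℂ) = 0) : ∀ α ∈ S, ∀ z, a α z = 0 := by
  classical
  obtain ⟨Q, hQ⟩ := ext_mon hR
  have key := lin S hQ hS hσ hσ1 (a := fun α => if α ∈ S then a α else fun _ => 0)
    (fun α => by
      split_ifs with h
      · exact ha α h
      · exact Tm.const hσ 0)
    (fun x => by
      rw [← hsum x]
      exact Finset.sum_congr rfl fun α hα => by rw [if_pos hα])
  intro α hα z
  have := key α hα z
  rwa [if_pos hα] at this

end Pool.Agent.Y717.BK
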